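import Pool.Agent.Helper65.CS.Goals

/-!
# Search for satisfying assignments: small lemmas for the packets SWI and FOL
-/

namespace Pool.Agent.Helper32.CS

open Pool.Agent.Helper78.DT Pool.Agent.Helper51.ZP Pool.Agent.Helper65.CS
open scoped Classical

theorem cw_nonneg {V : Type} [DecidableEq V] {G : Finset V → ℝ} (hG : ∀ A, 0 ≤ G A) (f : DL V) :
    ∀ (z : V → Bool) (u : ℕ) (A : Finset V), 0 ≤ cw G f z u A := by
  induction f with
  | nil =>
    intro z u A
    cases u with
    | zero => simpa [cw] using hG A
    | succ u => simp [cw]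
  | cons e f ih =>
    intro z u A
    cases u with
    | zero => simpa [cw] using hG A
    | succ u =>
      rw [cw]
      split_ifs
      · exact Finset.sum_nonneg fun B _ => Finset.sum_nonneg fun D _ => by
          split_ifs
          exacts [ih _ _ _, le_rfl]
      · exact ih _ _ _

theorem pr_eq_of_ind {Ω : Type*} [Fintype Ω] {E : Ω → Prop} {F : Ω → ℝ} (h1 : ∀ w, E w → F w = 1)
    (h0 : ∀ w, ¬ E w → F w = 0) : pr E = av F := by
  unfold pr
  refine av_congr fun w => ?_
  by_cases h : E w
  · rw [if_pos h, h1 w h]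
  · rw [if_neg h, h0 w h]

/-- The probability that a uniform assignment agrees with `σ` on `A`. -/
theorem pr_cyl {V : Type} [Fintype V] [DecidableEq V] (A : Finset V) (σ : V → Bool) :
    pr (fun y : V → Bool => ∀ v ∈ A, y v = σ v) = (1 / 2) ^ A.card := by
  have h1 : pr (fun y : V → Bool => ∀ v ∈ A, y v = σ v) =
      av fun y : V → Bool => ∏ v, if (v ∈ A → y v = σ v) then (1 : ℝ) else 0 := by
    refine pr_eq_of_ind (fun y h => ?_) fun y h => ?_
    · rw [Finset.prod_eq_one]
      intro v _
      rw [if_pos (h v)]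
    · push Not at h
      obtain ⟨v, hv, hne⟩ := h
      rw [Finset.prod_eq_zero (Finset.mem_univ v)]
      rw [if_neg]
      tauto
  have h2 := Finset.prod_univ_sum (fun _ : V => (Finset.univ : Finset Bool))
    (fun v b => if (v ∈ A → b = σ v) then (1 : ℝ) else 0)
  rw [Fintype.piFinset_univ] at h2
  have h3 : ∀ v, ∑ b : Bool, (if (v ∈ A → b = σ v) then (1 : ℝ) else 0) =
      2 * if v ∈ A then 1 / 2 else 1 := by
    intro v
    by_cases hv : v ∈ A
    · cases hs : σ v <;> simp [hv]
    · simp [hv]
  rw [h1]
  unfold av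
  rw [← h2, Finset.prod_congr rfl fun v _ => h3 v, Finset.prod_mul_distrib, Finset.prod_const,
    Finset.prod_ite_mem, Finset.univ_inter, Finset.prod_const, Fintype.card_fun,
    Fintype.card_bool, Nat.cast_pow, Nat.cast_ofNat, Finset.card_univ]
  field_simp

theorem card_vr {V : Type} [DecidableEq V] {T : Tm V} (hT : Con T) : (vr T).card = T.card := by
  refine Finset.card_image_of_injOn ?_
  rintro ⟨v, b⟩ hp ⟨v', b'⟩ hq h
  simp only at h
  subst h
  have := hT v
  simp only [Finset.mem_coe] at hp hq
  cases b <;> cases b' <;> first | rfl | (exfalso; exact this ⟨by assumption, by assumption⟩)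

/-- The probability that a uniform assignment satisfies a consistent term. -/
theorem pr_sat {V : Type} [Fintype V] [DecidableEq V] {T : Tm V} (hT : Con T) :
    pr (fun y : V → Bool => Sat T y) = (1 / 2) ^ T.card := by
  rw [← card_vr hT, ← pr_cyl (vr T) fun v => decide ((v, true) ∈ T)]
  refine pr_congr fun y => ?_
  constructor
  · intro h v hv
    obtain ⟨⟨v', b⟩, hp, rfl⟩ := Finset.mem_image.1 hv
    have h1 := h _ hp
    simp only at h1 ⊢
    rw [h1]
    cases b with
    | true => simp [hp]
    | false =>
      have := hT v'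
      have h2 : (v', true) ∉ T := fun h3 => this ⟨h3, hp⟩
      simp [h2]
  · intro h p hp
    obtain ⟨v, b⟩ := p
    have h1 := h v (Finset.mem_image.2 ⟨(v, b), hp, rfl⟩)
    simp only at h1 ⊢
    rw [h1]
    cases b with
    | true => simp [hp]
    | false =>
      have := hT v
      have h2 : (v, true) ∉ T := fun h3 => this ⟨h3, hp⟩
      simp [h2]

end Pool.Agent.Helper32.CS
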