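import Pool.Agent.Helper32.CS.Basic

/-!
# Packet CS-FOL: almost independent values fool shallow canonical trees
-/

namespace Pool.Agent.Helper32.CS

open Pool.Agent.Helper78.DT Pool.Agent.Helper51.ZP Pool.Agent.Helper65.CS
open scoped Classical

section
variable {V : Type} [DecidableEq V]

theorem fls_not_sat {ρ : V → Option Bool} {T : Tm V} (h : Fls ρ T) (y : V → Bool) :
    ¬ Sat T (mx ρ y) := by
  obtain ⟨p, hp, h1⟩ := h
  intro h2
  have h3 := h2 p hp
  unfold mx at h3
  rw [h1] at h3
  simp at h3

theorem sat_mx_iff {ρ : V → Option Bool} {T : Tm V} (h : ¬ Fls ρ T) (y : V → Bool) :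
    Sat T (mx ρ y) ↔ Sat (fr ρ T) y := by
  constructor
  · intro h1 p hp
    unfold fr at hp
    rw [Finset.mem_filter] at hp
    have h2 := h1 p hp.1
    unfold mx at h2
    rw [hp.2] at h2
    exact h2
  · intro h1 p hp
    unfold mx
    cases h2 : ρ p.1 with
    | none => exact h1 p (Finset.mem_filter.2 ⟨hp, h2⟩)
    | some b =>
      simp only [Option.getD_some]
      by_contra h3
      refine h ⟨p, hp, ?_⟩
      rw [h2]
      congr 1
      cases b <;> cases h4 : p.2 <;> simp_all

/-- The assignment which falsifies exactly the literals of `U` in `D`. -/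
noncomputable def xd (U D : Tm V) (v : V) : Bool :=
  decide (((v, true) ∈ U ∧ (v, true) ∉ D) ∨ (v, false) ∈ D)

theorem xd_iff {U D : Tm V} (hU : Con U) (hD : D ⊆ U) {p : V × Bool} (hp : p ∈ U) :
    xd U D p.1 = p.2 ↔ p ∉ D := by
  obtain ⟨v, b⟩ := p
  unfold xd
  have h1 := hU v
  cases b with
  | true =>
    have h2 : (v, false) ∉ D := fun h3 => h1 ⟨hp, hD h3⟩
    simp [hp, h2]
  | false =>
    have h2 : (v, true) ∉ U := fun h3 => h1 ⟨h3, hp⟩
    simp [h2]

/-- The term which says that the variables of `U` have the values `xd U D`. -/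
noncomputable def td (U D : Tm V) : Tm V := (vr U).image fun v => (v, xd U D v)

theorem sat_td {U D : Tm V} (hU : Con U) (hD : D ⊆ U) (y : V → Bool) :
    Sat (td U D) y ↔ (U.filter fun p => y p.1 ≠ p.2) = D := by
  have h0 : Sat (td U D) y ↔ ∀ p ∈ U, y p.1 = xd U D p.1 := by
    unfold Sat td vr
    simp only [Finset.image_image, Finset.forall_mem_image, Function.comp]
  rw [h0]
  constructor
  · intro h
    ext p
    rw [Finset.mem_filter]
    constructor
    · rintro ⟨hp, h1⟩
      rw [h p hp] at h1
      by_contra h2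
      exact h1 ((xd_iff hU hD hp).2 h2)
    · intro hp
      refine ⟨hD hp, ?_⟩
      rw [h p (hD hp)]
      intro h1
      exact (xd_iff hU hD (hD hp)).1 h1 hp
  · intro h p hp
    have h1 := xd_iff hU hD hp
    by_cases h2 : p ∈ D
    · have h3 : y p.1 ≠ p.2 := by
        rw [← h, Finset.mem_filter] at h2
        exact h2.2
      have h4 : xd U D p.1 ≠ p.2 := fun h5 => (h1.1 h5) h2
      revert h3 h4
      cases y p.1 <;> cases xd U D p.1 <;> cases p.2 <;> simp
    · rw [h1.2 h2]
      by_contra h3
      exact h2 (by rw [← h]; exact Finset.mem_filter.2 ⟨hp, h3⟩)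

theorem sat_union {T T' : Tm V} (y : V → Bool) : Sat (T ∪ T') y ↔ Sat T y ∧ Sat T' y := by
  unfold Sat
  constructor
  · intro h
    exact ⟨fun p hp => h p (Finset.mem_union_left _ hp),
      fun p hp => h p (Finset.mem_union_right _ hp)⟩
  · rintro ⟨h, h'⟩ p hp
    rcases Finset.mem_union.1 hp with hp | hp
    exacts [h p hp, h' p hp]

theorem vr_mono {T U : Tm V} (h : T ⊆ U) : vr T ⊆ vr U := Finset.image_subset_image h

theorem free_of_vr {ρ : V → Option Bool} {T : Tm V} {v : V} (h : v ∈ vr (fr ρ T)) :
    ρ v = none := by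
  obtain ⟨p, hp, rfl⟩ := Finset.mem_image.1 h
  unfold fr at hp
  exact (Finset.mem_filter.1 hp).2

/-- Splitting an event according to a function with values in a finite set. -/
theorem pr_split {Ω κ : Type*} [Fintype Ω] (s : Finset κ) (g : Ω → κ)
    (hg : ∀ w, g w ∈ s) (E : Ω → Prop) : pr E = ∑ D ∈ s, pr fun w => g w = D ∧ E w := by
  unfold pr
  rw [← av_sum]
  refine av_congr fun w => ?_
  by_cases h : E w
  · rw [if_pos h, Finset.sum_eq_single (g w)]
    · rw [if_pos ⟨rfl, h⟩]
    · intro D _ hD
      rw [if_neg]
      rintro ⟨h1, _⟩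
      exact hD h1.symm
    · intro h1
      exact absurd (hg w) h1
  · rw [if_neg h, Finset.sum_eq_zero]
    intro D _
    rw [if_neg]
    rintro ⟨_, h1⟩
    exact h h1

end

theorem fol_aux {V : Type} [Fintype V] [DecidableEq V] {Ω : Type} [Fintype Ω] [Nonempty Ω]
    (S : Finset V) {ε : ℝ} (Y : Ω → V → Bool) (hε : 0 ≤ ε) (hY : AI S ε Y) (f : DL V) :
    CL f → ∀ (ρ : V → Option Bool) (T : Tm V), (∀ v, ρ v = none → v ∈ S) →
      (∀ p ∈ T, ρ p.1 = some p.2) → (∀ p ∈ T, p.1 ∈ S) →
      |pr (fun ω => Sat T (Y ω) ∧ ev f (mx ρ (Y ω)) = true) -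
        pr (fun y => Sat T y ∧ ev f (mx ρ y) = true)| ≤ 2 ^ dep f ρ * ε := by
  induction f with
  | nil =>
    intro _ ρ T _ _ _
    have h1 : pr (fun ω => Sat T (Y ω) ∧ ev ([] : DL V) (mx ρ (Y ω)) = true) = 0 := by
      rw [pr_eq_of_ind (F := fun _ => (0 : ℝ)) (fun w h => by simp [ev] at h) fun _ _ => rfl]
      exact av_const 0
    have h2 : pr (fun y : V → Bool => Sat T y ∧ ev ([] : DL V) (mx ρ y) = true) = 0 := by
      rw [pr_eq_of_ind (F := fun _ => (0 : ℝ)) (fun w h => by simp [ev] at h) fun _ _ => rfl]
      exact av_const 0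
    rw [h1, h2, sub_zero, abs_zero]
    positivity
  | cons e f ih =>
    intro hCL ρ T hρS hTρ hTS
    have hCLf : CL f := fun e' he' => hCL e' (List.mem_cons_of_mem _ he')
    have hConT : ∀ (ρ : V → Option Bool) (T : Tm V), (∀ p ∈ T, ρ p.1 = some p.2) → Con T := by
      intro ρ T h v hv
      have h1 := h _ hv.1
      have h2 := h _ hv.2
      simp only at h1 h2
      rw [h1] at h2
      simp at h2
    by_cases hF : Fls ρ e.1
    · have h1 : ∀ y, ev (e :: f) (mx ρ y) = ev f (mx ρ y) := by
        intro y
        rw [ev, if_neg (fls_not_sat hF y)]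
      have h2 : dep (e :: f) ρ = dep f ρ := by
        rw [dep, if_pos hF]
      rw [h2]
      simp only [h1]
      exact ih hCLf ρ T hρS hTρ hTS
    · have hU : Con (fr ρ e.1) := by
        intro v hv
        have h1 := hCL e List.mem_cons_self v
        refine h1 ⟨?_, ?_⟩
        · exact (Finset.mem_filter.1 hv.1).1
        · exact (Finset.mem_filter.1 hv.2).1
      have hdep : dep (e :: f) ρ = (fr ρ e.1).card + Finset.univ.sup fun x : V → Bool =>
          if Sat (fr ρ e.1) x then 0 else dep f (fx ρ (fr ρ e.1) x) := by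
        rw [dep, if_neg hF]
      generalize hd : (Finset.univ.sup fun x : V → Bool =>
          if Sat (fr ρ e.1) x then 0 else dep f (fx ρ (fr ρ e.1) x)) = d at hdep
      have hdx : ∀ x : V → Bool, ¬ Sat (fr ρ e.1) x → dep f (fx ρ (fr ρ e.1) x) ≤ d := by
        intro x hx
        have h1 := Finset.le_sup (f := fun x : V → Bool =>
          if Sat (fr ρ e.1) x then 0 else dep f (fx ρ (fr ρ e.1) x)) (Finset.mem_univ x)
        rw [hd] at h1
        rw [if_neg hx] at h1
        exact h1
      obtain ⟨U, hUdef⟩ : ∃ U, U = fr ρ e.1 := ⟨_, rfl⟩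
      rw [← hUdef] at hU hdep hdx
      have hsplit : ∀ {Ω' : Type} [Fintype Ω'] (Y' : Ω' → V → Bool),
          pr (fun ω => Sat T (Y' ω) ∧ ev (e :: f) (mx ρ (Y' ω)) = true) =
          ∑ D ∈ U.powerset, pr (fun ω => Sat (td U D) (Y' ω) ∧
            (Sat T (Y' ω) ∧ ev (e :: f) (mx ρ (Y' ω)) = true)) := by
        intro Ω' _ Y'
        rw [pr_split U.powerset (fun ω => U.filter fun p => Y' ω p.1 ≠ p.2)
          (fun ω => Finset.mem_powerset.2 (Finset.filter_subset _ _))]
        refine Finset.sum_congr rfl fun D hD => pr_congr fun ω => ?_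
        rw [sat_td hU (Finset.mem_powerset.1 hD)]
      have hterm : ∀ D ∈ U.powerset,
          |pr (fun ω => Sat (td U D) (Y ω) ∧ (Sat T (Y ω) ∧ ev (e :: f) (mx ρ (Y ω)) = true)) -
            pr (fun y => Sat (td U D) y ∧ (Sat T y ∧ ev (e :: f) (mx ρ y) = true))| ≤
            2 ^ d * ε := by
        intro D hD
        have hDU := Finset.mem_powerset.1 hD
        -- the restriction after the queries
        have hρ' : ∀ p ∈ T ∪ td U D, fx ρ U (xd U D) p.1 = some p.2 := by
          intro p hp
          rcases Finset.mem_union.1 hp with hp | hp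
          · have h1 := hTρ p hp
            unfold fx
            rw [if_neg, h1]
            intro h2
            rw [hUdef] at h2
            rw [free_of_vr h2] at h1
            simp at h1
          · unfold td at hp
            obtain ⟨v, hv, rfl⟩ := Finset.mem_image.1 hp
            unfold fx
            simp only
            rw [if_pos hv]
        have hS' : ∀ p ∈ T ∪ td U D, p.1 ∈ S := by
          intro p hp
          rcases Finset.mem_union.1 hp with hp | hp
          · exact hTS p hp
          · unfold td at hp
            obtain ⟨v, hv, rfl⟩ := Finset.mem_image.1 hp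
            rw [hUdef] at hv
            exact hρS _ (free_of_vr hv)
        have hfree' : ∀ v, fx ρ U (xd U D) v = none → v ∈ S := by
          intro v hv
          unfold fx at hv
          by_cases h1 : v ∈ vr U
          · rw [if_pos h1] at hv
            simp at hv
          · rw [if_neg h1] at hv
            exact hρS v hv
        by_cases hD0 : Sat U (xd U D)
        · -- the term is satisfied
          have h1 : ∀ y, Sat (td U D) y → Sat e.1 (mx ρ y) := by
            intro y hy
            rw [sat_mx_iff hF, ← hUdef]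
            intro p hp
            rw [← hD0 p hp]
            exact hy (p.1, xd U D p.1) (Finset.mem_image.2
              ⟨p.1, Finset.mem_image.2 ⟨p, hp, rfl⟩, rfl⟩)
          have hcon := hConT _ _ hρ'
          cases he2 : e.2 with
          | false =>
            have h2 : ∀ {Ω' : Type} [Fintype Ω'] [Nonempty Ω'] (Y' : Ω' → V → Bool),
                pr (fun ω => Sat (td U D) (Y' ω) ∧
                  (Sat T (Y' ω) ∧ ev (e :: f) (mx ρ (Y' ω)) = true)) = 0 := by
              intro Ω' _ _ Y'
              rw [pr_eq_of_ind (F := fun _ => (0 : ℝ)) (fun w h => ?_) fun _ _ => rfl]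
              · exact av_const 0
              · exfalso
                obtain ⟨h3, _, h4⟩ := h
                rw [ev, if_pos (h1 _ h3), he2] at h4
                simp at h4
            rw [h2 Y, h2 (fun y : V → Bool => y), sub_zero, abs_zero]
            positivity
          | true =>
            have h2 : ∀ {Ω' : Type} [Fintype Ω'] (Y' : Ω' → V → Bool),
                pr (fun ω => Sat (td U D) (Y' ω) ∧
                  (Sat T (Y' ω) ∧ ev (e :: f) (mx ρ (Y' ω)) = true)) =
                pr (fun ω => Sat (T ∪ td U D) (Y' ω)) := by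
              intro Ω' _ Y'
              refine pr_congr fun w => ?_
              rw [sat_union]
              constructor
              · rintro ⟨h3, h4, _⟩
                exact ⟨h4, h3⟩
              · rintro ⟨h3, h4⟩
                refine ⟨h4, h3, ?_⟩
                rw [ev, if_pos (h1 _ h4), he2]
            rw [h2 Y, h2 (fun y : V → Bool => y)]
            have h3 : pr (fun y : V → Bool => Sat (T ∪ td U D) y) =
                (1 / 2) ^ (T ∪ td U D).card := pr_sat hcon
            rw [h3]
            refine (hY _ hcon hS').trans ?_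
            have : (1 : ℝ) ≤ 2 ^ d := one_le_pow₀ (by norm_num)
            nlinarith
        · -- the term is not satisfied
          have h1 : ∀ y, Sat (td U D) y → ev (e :: f) (mx ρ y) = ev f (mx (fx ρ U (xd U D)) y) := by
            intro y hy
            have hyx : ∀ v ∈ vr U, y v = xd U D v := fun v hv =>
              hy (v, xd U D v) (Finset.mem_image.2 ⟨v, hv, rfl⟩)
            have h2 : ¬ Sat e.1 (mx ρ y) := by
              rw [sat_mx_iff hF, ← hUdef]
              intro h3
              refine hD0 fun p hp => ?_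
              rw [← hyx p.1 (Finset.mem_image.2 ⟨p, hp, rfl⟩)]
              exact h3 p hp
            have h3 : mx ρ y = mx (fx ρ U (xd U D)) y := by
              funext v
              unfold mx fx
              by_cases hv : v ∈ vr U
              · rw [if_pos hv]
                have h4 := hv
                rw [hUdef] at h4
                rw [free_of_vr h4]
                simp [hyx v hv]
              · rw [if_neg hv]
            rw [ev, if_neg h2, h3]
          have h2 : ∀ {Ω' : Type} [Fintype Ω'] (Y' : Ω' → V → Bool),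
              pr (fun ω => Sat (td U D) (Y' ω) ∧
                (Sat T (Y' ω) ∧ ev (e :: f) (mx ρ (Y' ω)) = true)) =
              pr (fun ω => Sat (T ∪ td U D) (Y' ω) ∧
                ev f (mx (fx ρ U (xd U D)) (Y' ω)) = true) := by
            intro Ω' _ Y'
            refine pr_congr fun w => ?_
            rw [sat_union]
            constructor
            · rintro ⟨h3, h4, h5⟩
              rw [h1 _ h3] at h5
              exact ⟨⟨h4, h3⟩, h5⟩
            · rintro ⟨⟨h3, h4⟩, h5⟩
              rw [← h1 _ h4] at h5
              exact ⟨h4, h3, h5⟩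
          rw [h2 Y, h2 (fun y : V → Bool => y)]
          refine (ih hCLf (fx ρ U (xd U D)) (T ∪ td U D) hfree' hρ' hS').trans ?_
          have h3 := hdx (xd U D) hD0
          have : (2 : ℝ) ^ dep f (fx ρ U (xd U D)) ≤ 2 ^ d := pow_le_pow_right₀ (by norm_num) h3
          exact mul_le_mul_of_nonneg_right this hε
      rw [hsplit Y, hsplit (fun y : V → Bool => y), ← Finset.sum_sub_distrib, hdep]
      refine (Finset.abs_sum_le_sum_abs _ _).trans ((Finset.sum_le_sum hterm).trans ?_)
      rw [Finset.sum_const, Finset.card_powerset, nsmul_eq_mul, pow_add]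
      push_cast
      rw [mul_assoc]

theorem fol : FolStmt := by
  intro V _ _ Ω _ _ S ε Y f ρ hε hCL hρ hY
  have h := fol_aux S Y hε hY f hCL ρ ∅ hρ (by simp) (by simp)
  have h1 : pr (fun ω => Sat ∅ (Y ω) ∧ ev f (mx ρ (Y ω)) = true) =
      pr (fun ω => ev f (mx ρ (Y ω)) = true) := pr_congr fun w => by simp [Sat]
  have h2 : pr (fun y : V → Bool => Sat ∅ y ∧ ev f (mx ρ y) = true) =
      pr (fun y => ev f (mx ρ y) = true) := pr_congr fun w => by simp [Sat]
  rw [h1, h2] at h
  exact h

end Pool.Agent.Helper32.CS
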