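import Pool.Agent.Helper32.CS.Basic

/-!
# Packet CS-SWI: switching for a fixed free set
-/

namespace Pool.Agent.Helper32.CS

open Pool.Agent.Helper78.DT Pool.Agent.Helper51.ZP Pool.Agent.Helper65.CS
open scoped Classical

theorem swi (hCod : CodStmt) (hMix : MixStmt) : SwiStmt := by
  intro V _ _ S f c u0 hCL hc hu0
  have hG : ∀ A : Finset V, (0 : ℝ) ≤ (fun A : Finset V => if A ⊆ S then (1 : ℝ) else 0) A := by
    intro A
    simp only
    split_ifs <;> norm_num
  have hG1 : ∀ A : Finset V, A ⊆ S → (fun A : Finset V => if A ⊆ S then (1 : ℝ) else 0) A = 1 := by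
    intro A hA
    simp only
    rw [if_pos hA]
  generalize (fun A : Finset V => if A ⊆ S then (1 : ℝ) else 0) = G at hG hG1 ⊢
  obtain ⟨Φ, hΦ⟩ : ∃ Φ : (V → Bool) → ℝ,
      Φ = fun z => ∑ u ∈ Finset.Ico c (c + u0), 2 ^ u * cw G f z u ∅ := ⟨_, rfl⟩
  have hΦ0 : ∀ z, 0 ≤ Φ z := by
    intro z
    rw [hΦ]
    exact Finset.sum_nonneg fun u _ => mul_nonneg (by positivity) (cw_nonneg hG _ _ _ _)
  have h1 : ∑ u ∈ Finset.Ico c (c + u0), 2 ^ u * av (fun z => cw G f z u ∅) = av Φ := by
    rw [hΦ, av_sum]
    exact Finset.sum_congr rfl fun u _ => (av_mul_left _ _).symm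
  rw [h1, ← hMix V S Φ]
  refine av_mono fun z => ?_
  by_cases hz : c ≤ dep f (rs S z)
  · rw [if_pos hz]
    obtain ⟨u, A, σ, hcu, huc, hAu, hAS, hcod⟩ := hCod V f (rs S z) c u0 hCL hc hz (by
      intro e he
      refine lt_of_le_of_lt (Finset.card_le_card ?_) (hu0 e he)
      intro p hp
      unfold fr at hp
      rw [Finset.mem_filter] at hp ⊢
      refine ⟨hp.1, ?_⟩
      by_contra h
      have := hp.2
      unfold rs at this
      rw [if_neg h] at this
      exact absurd this (by simp))
    have hAS' : A ⊆ S := by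
      intro v hv
      by_contra h
      have := hAS v hv
      unfold rs at this
      rw [if_neg h] at this
      exact absurd this (by simp)
    have h2 : (2 : ℝ) ^ u * pr (fun y : V → Bool => ∀ v ∈ A, y v = σ v) ≤
        av fun y => Φ (mx (rs S z) y) := by
      rw [pr, ← av_mul_left]
      refine av_mono fun y => ?_
      by_cases hy : ∀ v ∈ A, y v = σ v
      · rw [if_pos hy, mul_one]
        have h3 := hcod (mx (rs S z) y) (by
          intro v b hb
          unfold mx
          rw [hb]
          rfl) (by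
          intro v hv
          unfold mx rs
          rw [if_pos (hAS' hv)]
          exact hy v hv) G hG ∅ (by simp)
        rw [hG1 _ (by simpa using hAS')] at h3
        calc (2 : ℝ) ^ u = 2 ^ u * 1 := (mul_one _).symm
          _ ≤ 2 ^ u * cw G f (mx (rs S z) y) u ∅ := by gcongr
          _ ≤ Φ (mx (rs S z) y) := by
            rw [hΦ]
            exact Finset.single_le_sum
              (f := fun u => (2 : ℝ) ^ u * cw G f (mx (rs S z) y) u ∅)
              (fun u _ => mul_nonneg (by positivity) (cw_nonneg hG _ _ _ _))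
              (Finset.mem_Ico.2 ⟨hcu, huc⟩)
      · rw [if_neg hy, mul_zero]
        exact hΦ0 _
    rw [pr_cyl, hAu] at h2
    have h4 : (2 : ℝ) ^ u * (1 / 2) ^ u = 1 := by
      rw [← mul_pow]
      norm_num
    linarith
  · rw [if_neg hz]
    exact av_nonneg fun y => hΦ0 _

end Pool.Agent.Helper32.CS
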